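import Mathlib
import Pool.Agent.N780.Defs
import Pool.Agent.N780.DefsE
import Pool.Agent.N780.G.Defs
import Pool.Agent.N780.G.Crit
import Pool.Agent.N780.G.Ex

set_option autoImplicit false

/-!
A criterion for the `p`-curvature conjecture on the affine line without the zeros of an integer polynomial.
-/

namespace Pool.Agent.Results.MP_aa40d3_nt.ConformalRadius

open Pool.Agent.N780 Pool.Agent.N780.PCurv

/-- **The `p`-curvature conjecture on the affine line without the zeros of `q`, if the conformal radius at an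
integral point is large.** `q` is an integer polynomial and `c` an integral point of its complement (`IsBasePoint`);
`HasDisc c q r`: there is a holomorphic map `φ` from the unit disc to the complement of the zeros of `q` with
`φ(0) = c` and `|φ'(0)| > r`.

* If `∑_p log p / ((p - 1) p^(h(p))) < log |φ'(0)|`, then there is ONE finite extension of `ℂ(x)` which contains
  all solutions of all systems `q^k Y' = A Y` of level `h(p)` at `p` for all primes `p`, and the conclusion already
  follows from the level conditions at finitely many primes which depend explicitly on the size of `A`.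
* In particular, this holds for systems whose `p`-curvature vanishes for all `p` outside a set `S` of primes,
  if `∑_(p ∈ S) log p / p + 0.76 < log |φ'(0)|`.
* If only `|φ'(0)| > 1`, then it holds for the systems of level `N` at the primes `p ≤ N` whose `p`-curvature
  vanishes at all `p > N`, for some `N`.
* Examples: the roots of `a x^m = 1`, with `r^m < 16 / |a|`; the points `0, 1, ∞`, with
  `r < √3 16^(1/3) = 4.36...`; the points `0, i, -i, ∞`, with half of this; the points `0, ∞` and the roots of
  `x^4 = -1`, with one quarter of this. -/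
theorem result :
    (∀ (c : ℂ) (q : Polynomial ℤ) (h : ℕ → ℕ), IsBasePoint c q →
      (Summable fun p : Nat.Primes => Real.log p / (((p : ℝ) - 1) * (p : ℝ) ^ h p)) →
      HasDisc c q (Real.exp (∑' p : Nat.Primes, Real.log p / (((p : ℝ) - 1) * (p : ℝ) ^ h p))) →
      UniformlyAlgebraic c q h ∧ EffectivelyAlgebraic c q h) ∧
    (∀ (c : ℂ) (q : Polynomial ℤ) (S : Set ℕ), IsBasePoint c q →
      (Summable fun p : Nat.Primes => S.indicator (fun p : ℕ => Real.log p / p) p) →
      HasDisc c q (Real.exp (0.76 +
        ∑' p : Nat.Primes, S.indicator (fun p : ℕ => Real.log p / p) p)) →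
      UniformlyAlgebraic c q (outside S) ∧ EffectivelyAlgebraic c q (outside S)) ∧
    (∀ (c : ℂ) (q : Polynomial ℤ), IsBasePoint c q → HasDisc c q 1 →
      ∃ N : ℕ, UniformlyAlgebraic c q (upTo N) ∧ EffectivelyAlgebraic c q (upTo N)) ∧
    (∀ (m : ℕ) (a : ℤ), m ≠ 0 → a ≠ 0 → IsBasePoint 0 (1 - Polynomial.C a * Polynomial.X ^ m) ∧
      ∀ r : ℝ, 0 ≤ r → |(a : ℝ)| * r ^ m < 16 →
        HasDisc 0 (1 - Polynomial.C a * Polynomial.X ^ m) r) ∧
    (∃ ω : ℂ, ω ^ 2 + ω + 1 = 0 ∧
      (IsBasePoint (-ω) (Polynomial.X * (1 - Polynomial.X)) ∧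
        ∀ r : ℝ, 0 < r → r < Real.sqrt 3 * Real.exp (Real.log 16 / 3) →
          HasDisc (-ω) (Polynomial.X * (1 - Polynomial.X)) r) ∧
      (IsBasePoint (ω ^ 2) (Polynomial.X * (1 + Polynomial.X ^ 2)) ∧
        ∀ r : ℝ, 0 < r → 2 * r < Real.sqrt 3 * Real.exp (Real.log 16 / 3) →
          HasDisc (ω ^ 2) (Polynomial.X * (1 + Polynomial.X ^ 2)) r) ∧
      (IsBasePoint ω (Polynomial.X * (1 + Polynomial.X ^ 4)) ∧
        ∀ r : ℝ, 0 < r → 4 * r < Real.sqrt 3 * Real.exp (Real.log 16 / 3) →
          HasDisc ω (Polynomial.X * (1 + Polynomial.X ^ 4)) r)) :=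
  ⟨fun _ _ h hb hs hd => crit hb h hs hd, fun _ _ S hb hS hd => crit_thin hb S hS hd,
    fun _ _ hb hd => crit_upTo hb hd,
    fun _ a hm ha => ⟨base_roots hm a, fun _ hr0 hr => disc_roots hm ha hr0 hr⟩,
    om, om_sq, ⟨base_three, fun _ hr0 hr => disc_three hr0 hr⟩, four, six⟩

end Pool.Agent.Results.MP_aa40d3_nt.ConformalRadius
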