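import Pool.Agent.N858.DS.Final3

set_option autoImplicit false

open Polynomial Pool.Agent.W432.WB Pool.Agent.W432.HK Pool.Agent.Y227.SO
open Pool.Agent.N858.PC Pool.Agent.N858.R3 Pool.Agent.N858.DS

/-!
# Irreducible Fuchsian operators with index of rigidity at least zero

Proof. If the `p`-curvatures vanish too often, all the conjugates `a e`, `a` prime to `N`, of the
exponents `e x l` are the weights of stable parabolic bundles of degree zero (starting results). Let `δ`
be the difference of two exponents `k`, `k'` at the point `x` which are not congruent modulo the
integers, let `d` be its denominator, and choose an exponent at every other point except `z`. Let `a δ`
be `1 / d` modulo the integers. The inequalities of stability for line subbundles, for `a` and for `-a`,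
say that at most `(s - 1) r` of the conjugate exponents (`s` is the number of points) are at `x` in the
arc from `a e x k` to `a e x k'`, at `z` in an arc of the length `1 - 1 / d` and at the other points in
the class of the chosen exponent. So
`mult x k + mult x k' + ∑ mult y ≤ (s - 2) r` (*), if no exponent at `z` is in the complementary open arc
of the length `1 / d`. An exponent at `z` can be in this arc only if its sum `D` with the chosen
exponents has a denominator which does not divide `d`. Let `P` be a prime power which divides the
denominator of `d D`: there are units `1 + i w` with `(1 + i w) δ = δ` such that `a (1 + i w) D` runs
through all the numbers `a D + i / P`, `i = 0, ..., P - 1`, at most `P / p` of the numbers `1 + i w` not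
being units. At most `P / d`, rounded up, of these numbers are in the arc. So this exponent is in the
short arc for a proportion less than `1 / r` of all `a` if `r ⌈P / d⌉ < φ(P)`, and some `a` is good for
all the exponents at `z`. This is
(*), for all choices. The inequalities (*) imply that the index of rigidity is negative, except if
there are three points with all multiplicities `r / 3`, or four with all multiplicities `r / 2`: let `z`
be the point with the smallest largest multiplicity `μ` and `u` the bound given by (*) for the second
largest multiplicities, then the sum of the squares of the multiplicities is at most
`(s - 2) r ^ 2 - u (μ - u)` if `u ≤ μ`, and less than `(s - 2) r ^ 2` if `u > μ`.

For differences without prime factors `≤ B` (`B` not effective) the same argument is applied to the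
torus which is the closure of the conjugates, with a parameter just above `1 / P`, `P` the difference
of two entries of a generic direction of the torus. The refinement in order two and three comes from the
strict inequalities for parameters just above `1 / P`, `P` the largest difference.

Exceptional types of order at least four. If the differences have no prime factors `≤ B`, there is a
conjugate for which the exponents at each point are nearly equal modulo the integers. Then, after a
change of the lattices at the points, the bundle underlying the stable parabolic bundle is trivial, and
the space of its sections with the filtrations at the points is stable. By Schur's lemma and duality
there are matrices with sum zero, one for each point, which preserve the filtrations and act on the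
graded parts by arbitrary rational numbers with total trace zero; if these numbers are generic, the
matrices have no common invariant subspace. But such matrices have rank at most two if they are four with
scalar squares, and at most three if they are three which satisfy cubic equations and `3` divides the
rank: the algebra generated by them (a deformed preprojective algebra of type `D4~` or `E6~`) has central
elements over which it is generated by few elements, and Burnside's theorem applies.

(Parts of the proof for exceptional types are due to helpers 439, 458, 602, 767, 287, 744, 402, 316, 710
and 51.)
-/

namespace Pool.Agent.Results.MP_aa40d3_nt.IndexNonnegative

/-- Irreducible operators of any order with index of rigidity at least zero, or with large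
multiplicities.

For all `m ≥ 1` and `n ≥ 2` there are `ε > 0` and `B` with the following property. Let
`L = b n ∂ ^ n + ... + b 0` be an operator of order `n` with integral polynomial coefficients,
irreducible over the algebraic numbers, and let `α` be `m` algebraic numbers.

(1) Assume that `L` is Fuchsian with finite singular points among the distinct `α j` and with rational
exponents `lam`, `phi`; the accessory parameters are arbitrary. Assume

* (denominators) one of the following: (`RoughSums`) the differences of exponents at the same point and
the sums of exponents, one for each point, have a common denominator all of whose prime factors are
greater than `2 n`; or, more generally, (`MildDen`) if `δ` is the difference of two exponents at a point,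
not an integer, of denominator `d`, and `D` is a sum of exponents, one for each point, including the second
of the two, then `d D` is an integer or its denominator is divisible by a prime power `P` for which
`n ⌈P / d⌉ < φ(P)` (this holds for example if the differences and the sums have a common denominator
which is a prime number); or (`Rough`) the differences alone have a common denominator without prime
factors `≤ B`;

* (multiplicities) that the index of rigidity, computed from the multiplicities of the exponents modulo
the integers, is at least zero, i.e. the sum of the squares of the multiplicities at the `m + 1` points
is at least `(m - 1) n ^ 2` (`IndexNonneg`), or that (`LargeMult`) there are two exponents at one point,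
not congruent modulo the integers, and exponents at all other points except one, whose multiplicities
have a sum greater than `(m - 1) n`.

Then one of the following holds.

(a) (`ExcType`) There are exactly three points where the exponents are not congruent to one another, and
all multiplicities there are `n / 3`, or exactly four such points, and all multiplicities there are
`n / 2`; moreover `LargeMult` does not hold, and if the differences have a common denominator without
prime factors `≤ B`, then `n ≤ 3`, and (`Refined`) for `n = 2` the differences of the exponents at the
four points are, in a suitable order, opposite in pairs, and some sum of exponents, one for each point, is
an integer (`SplitPairs`), for `n = 3` the exponents at the three points agree up to their order and up to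
shifts (`SameTriples`).

(b) The reductions of `L` modulo `p` do not have full bases of rational solutions for infinitely many
primes `p`, for a proportion at least `ε` of the residue classes modulo every common denominator of the
exponents; so the open implication of Grothendieck's conjecture holds for `L`.

(2) If the zeros of `b n ≠ 0` are among the distinct `α j`, and there are arbitrarily large `X` with
less than `ε π(X)` primes `p ≤ X` for which the reduction does not have a full basis of rational
solutions, then `L` is Fuchsian with rational exponents, and if the denominators are as in (1), then
`LargeMult` does not hold, and if the index of rigidity is at least zero, (a) holds. -/
theorem result (m n : ℕ) (hm : 1 ≤ m) (hn : 1 < n) :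
    ∃ (ε : ℝ) (B : ℕ), 0 < ε ∧ ∀ (b : Fin (n + 1) → ℤ[X]) (α : Fin m → AlgebraicClosure ℚ),
      ¬ Reducible b →
      (∀ lam phi, FuchsianWith b α lam phi →
        (RoughSums (2 * n) (allExp lam phi) ∨ MildDen (allExp lam phi) ∨
          Rough B (allExp lam phi)) →
        (LargeMult (allExp lam phi) ∨ IndexNonneg (allExp lam phi)) →
        (ExcType (allExp lam phi) ∧ ¬ LargeMult (allExp lam phi) ∧
          (Rough B (allExp lam phi) → n ≤ 3 ∧ Refined (allExp lam phi))) ∨
        (¬ Cond b ∧ ¬ FewBad b ε ∧ ∀ N, CommonDen lam phi N → BadPrimes b N ε)) ∧
      (ZerosAmong b α → FewBad b ε → ∃ lam phi, FuchsianWith b α lam phi ∧
        ((RoughSums (2 * n) (allExp lam phi) ∨ MildDen (allExp lam phi) ∨
          Rough B (allExp lam phi)) →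
          ¬ LargeMult (allExp lam phi) ∧ (IndexNonneg (allExp lam phi) →
            ExcType (allExp lam phi) ∧
              (Rough B (allExp lam phi) → n ≤ 3 ∧ Refined (allExp lam phi))))) :=
  all_op4 m n hm hn

end Pool.Agent.Results.MP_aa40d3_nt.IndexNonnegative
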