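import Pool.Agent.N638.PC.Fin

set_option autoImplicit false

/-!
# Grothendieck's conjecture on `p`-curvatures: the exceptional primes can be removed

The hypothesis of the open implication is that the reduction `L_p` of the operator `L`, of order `n`, has a full
basis of rational solutions for all primes `p` outside a finite exceptional set, which may depend on `L`.  We
prove that the exceptional set may be supposed to be empty: the conjecture is equivalent to its case for the
operators with integral coefficients whose reductions modulo ALL primes `p ≥ n` have order `n` and a full basis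
of rational solutions (a reduction modulo a prime `p < n` never has one).  Moreover, one may suppose that `L` is
congruent to `b_n (d/dx)^n` modulo high powers of all small primes `p ≥ n`.

The proof assigns to `L` the operator `L'` of the same order `n` with the solutions
`z = ∑_{k < n} x^k (∂^k y)(x^N)`, `L y = 0`, where `N` is divisible by high powers of the exceptional primes.  If
`p` divides `N`, the pull-back of the system of `L` is trivial modulo `p` (the derivative of `x^N` is zero), and
the solutions of `L'_p` are spanned by `1, x, …, x^(n-1)`.  If `p` does not divide `N`, then `y` can be recovered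
from `z` modulo `p`: the determinant of the `z, …, z^(n-1)` with respect to the `(∂^k y)(x^N)` is a polynomial in
`x`, with coefficients in `𝔽_p(x^N)`, of degree less than `N`, and its constant coefficient is a nonzero power
of `N`, up to a factor.
-/

namespace Pool.Agent.Results.MP_aa40d3_nt.NoExceptionalPrimes

open Polynomial Pool.Agent.N638.PCurv

/-- **The exceptional primes can be removed in Grothendieck's conjecture.**

* For every function `H`: the open implication of the conjecture (for all operators) is equivalent to the
  statement that the operators `L` of order `n` without exceptional prime (full bases of rational solutions of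
  `L_p` for every prime `p ≥ n`, and `L ≡ b_n (d/dx)^n` modulo `p ^ H n` for `n ≤ p ≤ H n`) have full bases of
  algebraic solutions.
* For one operator: if `L_p` has a full basis of rational solutions for almost all `p`, there is, for every
  `h`, an operator `L'` of the same order without exceptional prime which has a full basis of algebraic
  solutions if and only if `L` has.
* The condition `p ≥ n` is necessary: if the reduction of an operator of order `n` has a full basis of rational
  solutions, then `n ≤ p`. -/
theorem result :
    (∀ H : ℕ → ℕ,
      (∀ (n : ℕ) (b : Fin (n + 1) → ℤ[X]), b (Fin.last n) ≠ 0 →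
        (∃ N : ℕ, ∀ p : ℕ, N < p → ∀ _ : Fact (Nat.Prime p), FullBasisModP n b p) →
          FullBasisAlgebraic n b) ↔
      (∀ (n : ℕ) (b : Fin (n + 1) → ℤ[X]), NoExceptionalPrime (H n) n b → FullBasisAlgebraic n b)) ∧
    (∀ (n : ℕ) (b : Fin (n + 1) → ℤ[X]), b (Fin.last n) ≠ 0 →
      (∃ N : ℕ, ∀ p : ℕ, N < p → ∀ _ : Fact (Nat.Prime p), FullBasisModP n b p) →
      ∀ h : ℕ, ∃ b' : Fin (n + 1) → ℤ[X], NoExceptionalPrime h n b' ∧
        (FullBasisAlgebraic n b' ↔ FullBasisAlgebraic n b)) ∧
    (∀ (p : ℕ) (_ : Fact (Nat.Prime p)) (n : ℕ) (b : Fin (n + 1) → ℤ[X]),
      FullBasisModP n b p → n ≤ p) := by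
  refine ⟨fun H => ⟨fun hQ n b hb => ?_, fun hR n b hb hfull => ?_⟩, ?_, ?_⟩
  · obtain ⟨p, hnp, hp⟩ := Nat.exists_infinite_primes n
    refine hQ n b ?_ ⟨n, fun p hp hpF => (hb p hpF hp.le).2.1⟩
    intro h0
    exact (hb p ⟨hp⟩ hnp).1 (by rw [h0, Polynomial.map_zero])
  · obtain ⟨b', h1, h2⟩ := Pool.Agent.N638.PC.one_operator n b hb hfull (H n)
    exact h2.1 (hR n b' h1)
  · exact fun n b hb hfull h => Pool.Agent.N638.PC.one_operator n b hb hfull h
  · intro p _ n b h
    exact Pool.Agent.N638.PC.order_le_of_fullModP ((Pool.Agent.N638.PC.modp_iff n b p).1 h)

end Pool.Agent.Results.MP_aa40d3_nt.NoExceptionalPrimes
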