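import Mathlib
import Pool.Agent.N780.DefsR
import Pool.Agent.N780.R.E4

set_option autoImplicit false

/-!
An effective `p`-curvature theorem on the thrice punctured line: integral systems whose `p`-curvature vanishes for
the primes up to a bound which is linear in the height have rational solutions.
-/

namespace Pool.Agent.Results.MP_aa40d3_nt.RationalSolutions

open Pool.Agent.N780.PCurv

/-- **An effective `p`-curvature theorem on the thrice punctured line.** The base point is
`(1 - i √3) / 2`; the systems are `(x (1 - x))^k Y' = A Y`, `A` with coefficients in a ring finite and free over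
the integers.

* If `∑_p log p / ((p - 1) p^(h(p))) < log (√3 · 16^(1/3)) = 1.47...`, then for every coefficient ring,
  rank `n`, exponent `k` and degree `a` there is a constant `K` such that every system of height `H` which
  has level `h(p)` at the finitely many primes `p ≤ K (H + 1)` has only rational solutions, with poles at
  `0`, `1`, `∞` only.
* In particular this holds if the `p`-curvature vanishes for the primes `p ≤ K (H + 1)` which are not in `S`, where
  `∑_(p ∈ S) log p / p ≤ log 2 / 2 + log 3 / 3`.
* For instance, it suffices that the `p`-curvature vanishes for the primes `5 ≤ p ≤ K (H + 1)`. -/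
theorem result :
    (∀ h : ℕ → ℕ,
      (Summable fun p : Nat.Primes => Real.log p / (((p : ℝ) - 1) * (p : ℝ) ^ h p)) →
      ∑' p : Nat.Primes, Real.log p / (((p : ℝ) - 1) * (p : ℝ) ^ h p) <
        Real.log 3 / 2 + Real.log 16 / 3 →
      EffectivelyRational ⟨1 / 2, -(Real.sqrt 3 / 2)⟩ (Polynomial.X * (1 - Polynomial.X)) h) ∧
    (∀ S : Set ℕ,
      (Summable fun p : Nat.Primes => S.indicator (fun p : ℕ => Real.log p / p) p) →
      ∑' p : Nat.Primes, S.indicator (fun p : ℕ => Real.log p / p) p ≤
        Real.log 2 / 2 + Real.log 3 / 3 →
      EffectivelyRational ⟨1 / 2, -(Real.sqrt 3 / 2)⟩ (Polynomial.X * (1 - Polynomial.X))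
        (outside S)) ∧
    EffectivelyRational ⟨1 / 2, -(Real.sqrt 3 / 2)⟩ (Polynomial.X * (1 - Polynomial.X))
      (outside {2, 3}) :=
  ⟨Pool.Agent.N780.rat_general, Pool.Agent.N780.rat_thin,
    Pool.Agent.N780.rat_thin _ Pool.Agent.N780.two_three.1 Pool.Agent.N780.two_three.2.le⟩

end Pool.Agent.Results.MP_aa40d3_nt.RationalSolutions
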